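import Mathlib

/-! # A short exact sequence of complexes -/

set_option autoImplicit false
set_option linter.unusedSectionVars false
set_option linter.unusedVariables false

namespace Pool.Agent.NegK.NT.H5

universe u

/-- A complex with a relation between cycles and homology classes. -/
structure Cx (E : ℤ → Type u) [∀ n, AddCommGroup (E n)] (H : ℤ → Type u)
    [∀ n, AddCommGroup (H n)] (d : ∀ n m, E n → E m) (R : ∀ n, E n → H n → Prop) : Prop where
  dsub : ∀ n m x y, d n m (x - y) = d n m x - d n m y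
  dd : ∀ a b c x, d b c (d a b x) = 0
  ex : ∀ n h, ∃ x, R n x h
  ex' : ∀ n m, n + 1 = m → ∀ x, d n m x = 0 → ∃ h, R n x h
  cyc : ∀ n m, n + 1 = m → ∀ x h, R n x h → d n m x = 0
  zero : ∀ m n, m + 1 = n → ∀ x h, R n x h → (h = 0 ↔ ∃ y, d m n y = x)
  sub : ∀ n x y h g, R n x h → R n y g → R n (x - y) (h - g)

variable {E V F : ℤ → Type u} [∀ n, AddCommGroup (E n)] [∀ n, AddCommGroup (V n)]
  [∀ n, AddCommGroup (F n)] {dE : ∀ n m, E n → E m} {dV : ∀ n m, V n → V m}
  {dF : ∀ n m, F n → F m} {HE HV : ℤ → Type u} [∀ n, AddCommGroup (HE n)]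
  [∀ n, AddCommGroup (HV n)] {RE : ∀ n, E n → HE n → Prop} {RV : ∀ n, V n → HV n → Prop}

theorem Cx.d_zero {R : ∀ n, E n → HE n → Prop} (h : Cx E HE dE R) (n m : ℤ) : dE n m 0 = 0 := by
  have := h.dsub n m 0 0
  rw [sub_self, sub_self] at this
  exact this

theorem bij_iff (cE : Cx E HE dE RE) (cV : Cx V HV dV RV) (bd : ∀ n, E n → V n)
    (sm : ∀ n, V n → F n) (Q : ∀ n, F n → Prop) (bdH : ∀ n, HE n → HV n)
    (bdinj : ∀ n, Function.Injective (bd n)) (bdsub : ∀ n x y, bd n (x - y) = bd n x - bd n y)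
    (smsub : ∀ n x y, sm n (x - y) = sm n x - sm n y)
    (bdHsub : ∀ n x y, bdH n (x - y) = bdH n x - bdH n y)
    (ker : ∀ n y, sm n y = 0 → ∃ x, bd n x = y) (smbd : ∀ n x, sm n (bd n x) = 0)
    (ran : ∀ n x, Q n x → ∃ y, sm n y = x) (mem : ∀ n y, Q n (sm n y))
    (natb : ∀ n m x, bd m (dE n m x) = dV n m (bd n x))
    (nats : ∀ n m y, sm m (dV n m y) = dF n m (sm n y))
    (natR : ∀ n x h, RE n x h → RV n (bd n x) (bdH n h)) :
    (∀ n, Function.Bijective (bdH n)) ↔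
      ∀ m n l : ℤ, m + 1 = n → n + 1 = l → ∀ x, Q n x → dF n l x = 0 →
        ∃ y, Q m y ∧ dF m n y = x := by
  have bd0 : ∀ n, bd n 0 = 0 := fun n => by
    have := bdsub n 0 0
    rw [sub_self, sub_self] at this
    exact this
  have sm0 : ∀ n, sm n 0 = 0 := fun n => by
    have := smsub n 0 0
    rw [sub_self, sub_self] at this
    exact this
  have bdH0 : ∀ n, bdH n 0 = 0 := fun n => by
    have := bdHsub n 0 0
    rw [sub_self, sub_self] at this
    exact this
  constructor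
  · intro hb m n l hm hn q hq hdq
    obtain ⟨y, rfl⟩ := ran n q hq
    rw [← nats] at hdq
    obtain ⟨x, hx⟩ := ker l _ hdq
    have h1 : dE l (l + 1) x = 0 := by
      refine bdinj _ ?_
      rw [natb, hx, cV.dd, bd0]
    obtain ⟨h, hh⟩ := cE.ex' l _ rfl x h1
    have h2 := natR _ _ _ hh
    have h3 : bdH l h = 0 := (cV.zero n l hn _ _ h2).2 ⟨y, hx.symm⟩
    have h4 : h = 0 := (hb l).1 (h3.trans (bdH0 l).symm)
    obtain ⟨x', hx'⟩ := (cE.zero n l hn _ _ hh).1 h4
    have h5 : dV n l (y - bd n x') = 0 := by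
      rw [cV.dsub, ← natb, hx', hx, sub_self]
    obtain ⟨g, hg⟩ := cV.ex' n l hn _ h5
    obtain ⟨g', rfl⟩ := (hb n).2 g
    obtain ⟨x'', hx''⟩ := cE.ex n g'
    have h6 := cV.sub _ _ _ _ _ hg (natR _ _ _ hx'')
    rw [sub_self] at h6
    obtain ⟨w, hw⟩ := (cV.zero m n hm _ _ h6).1 rfl
    refine ⟨sm m w, mem m w, ?_⟩
    rw [← nats, hw, smsub, smsub, smbd, smbd, sub_zero, sub_zero]
  · intro hQ n
    constructor
    · have key : ∀ h, bdH n h = 0 → h = 0 := by
        intro h hh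
        obtain ⟨x, hx⟩ := cE.ex n h
        have h1 := natR _ _ _ hx
        rw [hh] at h1
        obtain ⟨y, hy⟩ := (cV.zero (n - 1) n (by omega) _ _ h1).1 rfl
        have h2 : dF (n - 1) n (sm (n - 1) y) = 0 := by
          rw [← nats, hy, smbd]
        obtain ⟨q, hq, hq'⟩ := hQ (n - 2) (n - 1) n (by omega) (by omega) _ (mem _ y) h2
        obtain ⟨r, rfl⟩ := ran _ q hq
        obtain ⟨x', hx'⟩ := ker (n - 1) (y - dV (n - 2) (n - 1) r) (by
          rw [smsub, nats, hq', sub_self])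
        refine (cE.zero (n - 1) n (by omega) _ _ hx).2 ⟨x', bdinj n ?_⟩
        rw [natb, hx', cV.dsub, hy, cV.dd, sub_zero]
      intro h h' hh
      have := key (h - h') (by rw [bdHsub, hh, sub_self])
      exact sub_eq_zero.1 this
    · intro h
      obtain ⟨z, hz⟩ := cV.ex n h
      have hd := cV.cyc n (n + 1) rfl _ _ hz
      have h2 : dF n (n + 1) (sm n z) = 0 := by
        rw [← nats, hd, sm0]
      obtain ⟨q, hq, hq'⟩ := hQ (n - 1) n (n + 1) (by omega) (by omega) _ (mem _ z) h2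
      obtain ⟨r, rfl⟩ := ran _ q hq
      obtain ⟨x, hx⟩ := ker n (z - dV (n - 1) n r) (by
          rw [smsub, nats, hq', sub_self])
      obtain ⟨g, hg⟩ := cE.ex' n (n + 1) rfl x (by
        refine bdinj _ ?_
        rw [natb, hx, cV.dsub, hd, cV.dd, sub_zero, bd0])
      refine ⟨g, ?_⟩
      have h3 := cV.sub _ _ _ _ _ hz (natR _ _ _ hg)
      refine (sub_eq_zero.1 ((cV.zero (n - 1) n (by omega) _ _ h3).2 ⟨r, ?_⟩)).symm
      rw [hx, sub_sub_cancel]

end Pool.Agent.NegK.NT.H5
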