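import Pool.Agent.Lib.MP_28303a_al.NT.A.Iface
import Pool.Agent.Lib.MP_28303a_al.NT.H5.Alg

/-! # `L_j X = 0` if and only if the homology of `X` is `T_j`-acyclic -/

set_option autoImplicit false
set_option linter.unusedSectionVars false
set_option linter.unusedVariables false

namespace Pool.Agent.NegK.NT.H5

universe u

open CategoryTheory Limits Pretriangulated

section ds

variable {k : Type u} [Ring k] {Γ : Type u} [Group Γ] {B : Type u} [MulAction Γ B] {P : Pre Γ B}

/-- The direct sum of values of `M`. -/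
abbrev DS (M : Fn k P) {I : Type u} (w : I → B) : Type u :=
  DirectSum I fun i => M.obj (Opposite.op (Bx.of (w i)))

/-- The map of direct sums. -/
noncomputable def dm {M N : Fn k P} (f : M ⟶ N) {I : Type u} (w : I → B) :
    DS M w →ₗ[k] DS N w := DirectSum.lmap fun i => (f.app (Opposite.op (Bx.of (w i)))).hom

theorem dm_apply {M N : Fn k P} (f : M ⟶ N) {I : Type u} (w : I → B) (x : DS M w) (i : I) :
    dm f w x i = (f.app (Opposite.op (Bx.of (w i)))).hom (x i) := rfl

theorem dm_range {M N : Fn k P} (f : M ⟶ N) {I : Type u} (w : I → B) (y : DS N w)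
    (h : ∀ i, ∃ x, (f.app (Opposite.op (Bx.of (w i)))).hom x = y i) : ∃ x, dm f w x = y := by
  have h1 : y ∈ LinearMap.range (dm f w) := by
    rw [dm, DirectSum.range_lmap]
    intro i _
    exact h i
  exact h1

theorem dm_comp {M N L : Fn k P} (f : M ⟶ N) (g : N ⟶ L) {I : Type u} (w : I → B)
    (x : DS M w) : dm g w (dm f w x) = dm (f ≫ g) w x := by
  refine DFinsupp.ext fun i => ?_
  rfl

theorem dm_zero {M N : Fn k P} {I : Type u} (w : I → B)
    (x : DS M w) : dm (0 : M ⟶ N) w x = 0 := by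
  refine DFinsupp.ext fun i => ?_
  rfl

/-- `x` is a cycle with class `h`. -/
def Rel (K : CochainComplex (Fn k P) ℤ) (n : ℤ) {I : Type u} (w : I → B) (x : DS (K.X n) w)
    (h : DS (K.homology n) w) : Prop :=
  ∃ z : DS (K.cycles n) w, dm (K.iCycles n) w z = x ∧ dm (K.homologyπ n) w z = h

variable (hE : ElhStatement.{u}) (K : CochainComplex (Fn k P) ℤ) (n : ℤ) {I : Type u} (w : I → B)
include hE

theorem exists_rel (h : DS (K.homology n) w) : ∃ x, Rel K n w x h := by
  obtain ⟨z, hz⟩ := dm_range (K.homologyπ n) w h fun i => (hE k Γ B P K n _).1 _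
  exact ⟨_, z, rfl, hz⟩

theorem exists_rel' {m : ℤ} (hm : n + 1 = m) (x : DS (K.X n) w) (hx : dm (K.d n m) w x = 0) :
    ∃ h, Rel K n w x h := by
  subst hm
  obtain ⟨z, hz⟩ := dm_range (K.iCycles n) w x fun i =>
    (hE k Γ B P K n _).2.1 _ (by
      have := DFunLike.congr_fun hx i
      exact this)
  exact ⟨_, z, hz, rfl⟩

theorem rel_d {m : ℤ} (hm : n + 1 = m) {x : DS (K.X n) w} {h : DS (K.homology n) w}
    (hx : Rel K n w x h) : dm (K.d n m) w x = 0 := by
  subst hm
  obtain ⟨z, rfl, rfl⟩ := hx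
  refine DFinsupp.ext fun i => ?_
  exact (hE k Γ B P K n _).2.2.2.1 _

theorem rel_zero {m : ℤ} (hm : m + 1 = n) {x : DS (K.X n) w} {h : DS (K.homology n) w}
    (hx : Rel K n w x h) : h = 0 ↔ ∃ y, dm (K.d m n) w y = x := by
  obtain rfl : m = n - 1 := by omega
  obtain ⟨z, rfl, rfl⟩ := hx
  constructor
  · intro h0
    refine dm_range _ w _ fun i => ((hE k Γ B P K n _).2.2.2.2 (z i)).1 ?_
    exact DFunLike.congr_fun h0 i
  · rintro ⟨y, hy⟩
    refine DFinsupp.ext fun i => ?_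
    exact ((hE k Γ B P K n _).2.2.2.2 (z i)).2 ⟨y i, DFunLike.congr_fun hy i⟩

omit hE in
theorem rel_sub {x x' : DS (K.X n) w} {h h' : DS (K.homology n) w}
    (hx : Rel K n w x h) (hx' : Rel K n w x' h') : Rel K n w (x - x') (h - h') := by
  obtain ⟨z, rfl, rfl⟩ := hx
  obtain ⟨z', rfl, rfl⟩ := hx'
  exact ⟨z - z', map_sub _ _ _, map_sub _ _ _⟩

theorem cx : Cx (fun n => DS (K.X n) w) (fun n => DS (K.homology n) w)
    (fun n m => dm (K.d n m) w) fun n => Rel K n w where
  dsub n m x y := map_sub _ _ _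
  dd a b c x := by rw [dm_comp, K.d_comp_d, dm_zero]
  ex n h := exists_rel hE K n w h
  ex' n m hm x hx := exists_rel' hE K n w hm x hx
  cyc n m hm x h hx := rel_d hE K n w hm hx
  zero m n hm x h hx := rel_zero hE K n w hm hx
  sub n x y h g hx hy := rel_sub K n w hx hy

end ds

section bd

variable {Γ : Type u} [Group Γ] {T : Sys Γ} (D : T.Tr) {S : Finset (Fin T.m)} (j : Fin T.m)
  {k : Type u} [Ring k]

theorem bd_nat {M N : Fn k (T.P S)} (f : M ⟶ N) (U : T.Box)
    (x : DS M fun e => T.up j U (D.ed j e)) :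
    D.bd N j U (dm f (fun e => T.up j U (D.ed j e)) x) =
      dm f (fun v => T.up j U (D.vt j v)) (D.bd M j U x) := by
  classical
  have h1 : D.bd N j U ∘ₗ dm f (fun e => T.up j U (D.ed j e)) =
      dm f (fun v => T.up j U (D.vt j v)) ∘ₗ D.bd M j U := by
    refine DirectSum.linearMap_ext _ fun e => LinearMap.ext fun y => ?_
    simp only [LinearMap.comp_apply]
    rw [dm, DirectSum.lmap_lof, Sys.Tr.bd, Sys.Tr.bd, DirectSum.toModule_lof,
      DirectSum.toModule_lof, LinearMap.sub_apply, LinearMap.sub_apply, LinearMap.comp_apply,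
      LinearMap.comp_apply, LinearMap.comp_apply, LinearMap.comp_apply, map_sub, dm,
      DirectSum.lmap_lof, DirectSum.lmap_lof]
    have hn : ∀ {a b : (Bx (T.P S))ᵒᵖ} (φ : a ⟶ b) (y : M.obj a),
        (N.map φ).hom ((f.app a).hom y) = (f.app b).hom ((M.map φ).hom y) := fun φ y =>
      (congrArg (fun g => g.hom y) (f.naturality φ)).symm
    rw [hn, hn]
  exact LinearMap.congr_fun h1 x

variable (hE : ElhStatement.{u}) (hT : TacsStatement.{u}) (C : CochainComplex (Loc k (T.P S)) ℤ)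

/-- The complex of functors. -/
noncomputable abbrev evc : CochainComplex (Fn k (T.P S)) ℤ :=
  ((Loc.ev (k := k) (P := T.P S)).mapHomologicalComplex (ComplexShape.up ℤ)).obj C

include hE

theorem rel_bd (K : CochainComplex (Fn k (T.P S)) ℤ) (n : ℤ) (U : T.Box)
    {x : DS (K.X n) fun e => T.up j U (D.ed j e)}
    {h : DS (K.homology n) fun e => T.up j U (D.ed j e)}
    (hx : Rel K n (fun e => T.up j U (D.ed j e)) x h) :
    Rel K n (fun v => T.up j U (D.vt j v)) (D.bd _ j U x) (D.bd _ j U h) := by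
  obtain ⟨z, rfl, rfl⟩ := hx
  exact ⟨D.bd _ j U z, (bd_nat D j (K.iCycles n) U z).symm, (bd_nat D j (K.homologyπ n) U z).symm⟩

omit hE in
theorem sm_nat {A A' : Loc k (T.P S)} (f : A ⟶ A') (U : T.Box)
    (x : DS (Loc.ev.obj A) fun v => T.up j U (D.vt j v)) :
    D.sm j A' U (dm (Loc.ev.map f) (fun v => T.up j U (D.vt j v)) x) =
      Loc.lin f (D.sm j A U x) := by
  classical
  let l : A.F →ₗ[k] A'.F :=
    { toFun := Loc.lin f
      map_add' := map_add _
      map_smul' := fun c x => Loc.lin_smul f c x }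
  have h1 : D.sm j A' U ∘ₗ dm (Loc.ev.map f) (fun v => T.up j U (D.vt j v)) =
      l ∘ₗ D.sm j A U := by
    refine DirectSum.linearMap_ext _ fun e => LinearMap.ext fun y => ?_
    simp only [LinearMap.comp_apply]
    rw [dm, DirectSum.lmap_lof, Sys.Tr.sm, Sys.Tr.sm, DirectSum.toModule_lof,
      DirectSum.toModule_lof]
    rfl
  exact LinearMap.congr_fun h1 x

/-- The complex `ev (L_j C)` is exact at `U`. -/
def QAc (U : T.Box) : Prop :=
  ∀ (m n l : ℤ), m + 1 = n → n + 1 = l → ∀ x : (C.X n).F,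
    x ∈ Loc.evS (k := k) (P := T.P (S.erase j)) ⟨(C.X n).ι, (C.X n).loc⟩ U →
    Loc.lin (C.d n l) x = 0 →
    ∃ y : (C.X m).F, y ∈ Loc.evS (k := k) (P := T.P (S.erase j)) ⟨(C.X m).ι, (C.X m).loc⟩ U ∧
      Loc.lin (C.d m n) y = x

include hT

omit hE in
theorem bd_inj (hj : j ∈ S) (A : Loc k (T.P S)) (U : T.Box)
    {x y : DS (Loc.ev.obj A) fun e => T.up j U (D.ed j e)} (h : D.bd _ j U x = D.bd _ j U y) :
    x = y := (hT Γ T D S j k A U hj).1 h

omit hE in
theorem sm_bd (hj : j ∈ S) (A : Loc k (T.P S)) (U : T.Box)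
    (x : DS (Loc.ev.obj A) fun e => T.up j U (D.ed j e)) : D.sm j A U (D.bd _ j U x) = 0 := by
  have h1 : D.bd (Loc.ev.obj A) j U x ∈ LinearMap.ker (D.sm j A U) := by
    rw [← (hT Γ T D S j k A U hj).2.1]
    exact ⟨x, rfl⟩
  exact h1

omit hE in
theorem exists_bd (hj : j ∈ S) (A : Loc k (T.P S)) (U : T.Box)
    (y : DS (Loc.ev.obj A) fun v => T.up j U (D.vt j v)) (h : D.sm j A U y = 0) :
    ∃ x, D.bd (Loc.ev.obj A) j U x = y := by
  have h1 : y ∈ LinearMap.ker (D.sm j A U) := h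
  rw [← (hT Γ T D S j k A U hj).2.1] at h1
  exact h1

omit hE in
theorem exists_sm (hj : j ∈ S) (A : Loc k (T.P S)) (U : T.Box) (x : A.F)
    (hx : x ∈ Loc.evS (k := k) (P := T.P (S.erase j)) ⟨A.ι, A.loc⟩ U) :
    ∃ y, D.sm j A U y = x :=
  ((hT Γ T D S j k A U hj).2.2 x).2 hx

omit hE in
theorem sm_mem (hj : j ∈ S) (A : Loc k (T.P S)) (U : T.Box)
    (y : DS (Loc.ev.obj A) fun v => T.up j U (D.vt j v)) :
    D.sm j A U y ∈ Loc.evS (k := k) (P := T.P (S.erase j)) ⟨A.ι, A.loc⟩ U :=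
  ((hT Γ T D S j k A U hj).2.2 _).1 ⟨y, rfl⟩

theorem bij_iff_qac (hj : j ∈ S) (U : T.Box) :
    (∀ n, Function.Bijective (D.bd ((evc C).homology n) j U)) ↔ QAc j C U := by
  refine bij_iff (cx hE (evc C) fun e => T.up j U (D.ed j e))
    (cx hE (evc C) fun v => T.up j U (D.vt j v)) (fun n => D.bd ((evc C).X n) j U)
    (fun n => D.sm j (C.X n) U)
    (fun n x => x ∈ Loc.evS (k := k) (P := T.P (S.erase j)) ⟨(C.X n).ι, (C.X n).loc⟩ U)
    (dF := fun n m => Loc.lin (C.d n m)) (fun n => D.bd ((evc C).homology n) j U)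
    (fun n x y h => bd_inj D j hT hj (C.X n) U h) (fun n => map_sub _) (fun n => map_sub _)
    (fun n => map_sub _) (fun n y h => exists_bd D j hT hj (C.X n) U y h)
    (fun n x => sm_bd D j hT hj (C.X n) U x) (fun n x h => exists_sm D j hT hj (C.X n) U x h)
    (fun n y => sm_mem D j hT hj (C.X n) U y) (fun n m x => bd_nat D j ((evc C).d n m) U x)
    (fun n m y => sm_nat D j (C.d n m) U y) fun n x h hx => rel_bd D j hE (evc C) n U hx

end bd

section fin

variable {Γ : Type u} [Group Γ] {T : Sys Γ} {S : Finset (Fin T.m)} {k : Type u} [Ring k]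

theorem per_L {S' : Finset (Fin T.m)} (hS : S' ⊆ S) {X : KK k (T.P S)} (h : Per X) :
    Per ((T.L k hS).obj X) := by
  obtain ⟨E, hE, ⟨ρ⟩⟩ := h
  exact ⟨((Loc.push (T.fg hS)).mapHomologicalComplex (ComplexShape.up ℤ)).obj E,
    ⟨hE.fin, hE.bdd⟩, ⟨ρ.map (T.L k hS)⟩⟩

/-- The complex of functors of `L_j C`. -/
noncomputable abbrev evl (j : Fin T.m) (C : CochainComplex (Loc k (T.P S)) ℤ) :
    CochainComplex (Fn k (T.P (S.erase j))) ℤ :=
  evc (((Loc.push (T.fg (S.erase_subset j))).mapHomologicalComplex (ComplexShape.up ℤ)).obj C)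

theorem isZero_val {P : Pre Γ T.Box} {M : Fn k P} (h : IsZero M) (U : (Bx P)ᵒᵖ) (x : M.obj U) :
    x = 0 := by
  have h1 : IsZero (M.obj U) := h.obj U
  have := ModuleCat.subsingleton_of_isZero h1
  exact Subsingleton.elim _ _

theorem isZero_of_val {P : Pre Γ T.Box} {M : Fn k P} (h : ∀ U (x : M.obj U), x = 0) :
    IsZero M := by
  refine Functor.isZero M fun U => ?_
  have : Subsingleton (M.obj U) := ⟨fun x y => (h U x).trans (h U y).symm⟩
  exact ModuleCat.isZero_of_subsingleton _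

theorem qac_of_isZero (hE : ElhStatement.{u}) (j : Fin T.m)
    (C : CochainComplex (Loc k (T.P S)) ℤ) (h : ∀ n, IsZero ((evl j C).homology n)) (U : T.Box) :
    QAc j C U := by
  intro m n l hm hn x hx hd
  subst hn
  obtain rfl : m = n - 1 := by omega
  obtain ⟨h1, h2, h3, h4, h5⟩ := hE k Γ T.Box (T.P (S.erase j)) (evl j C) n
    (Opposite.op (Bx.of U))
  obtain ⟨z, hz⟩ := h2 (⟨x, hx⟩ : Loc.evS (k := k) (P := T.P (S.erase j))
    ⟨(C.X n).ι, (C.X n).loc⟩ U) (Subtype.ext hd)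
  obtain ⟨y, hy⟩ := (h5 z).1 (isZero_val (h n) _ _)
  refine ⟨(y : Loc.evS (k := k) (P := T.P (S.erase j)) ⟨(C.X (n - 1)).ι, (C.X (n - 1)).loc⟩ U).1,
    Subtype.property _, ?_⟩
  have h6 := hy.trans hz
  exact congrArg (fun y : Loc.evS (k := k) (P := T.P (S.erase j)) ⟨(C.X n).ι, (C.X n).loc⟩ U =>
    y.1) h6

theorem isZero_of_qac (hE : ElhStatement.{u}) (j : Fin T.m)
    (C : CochainComplex (Loc k (T.P S)) ℤ) (h : ∀ U, QAc j C U) (n : ℤ) :
    IsZero ((evl j C).homology n) := by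
  refine isZero_of_val fun U x => ?_
  obtain ⟨h1, h2, h3, h4, h5⟩ := hE k Γ T.Box (T.P (S.erase j)) (evl j C) n U
  obtain ⟨z, rfl⟩ := h1 x
  refine (h5 z).2 ?_
  have h6 := h4 z
  let z' : Loc.evS (k := k) (P := T.P (S.erase j)) ⟨(C.X n).ι, (C.X n).loc⟩ U.unop.pt :=
    (((evl j C).iCycles n).app U).hom z
  obtain ⟨y, hy, hy'⟩ := h U.unop.pt (n - 1) n (n + 1) (by omega) rfl z'.1 z'.2
    (congrArg (fun y : Loc.evS (k := k) (P := T.P (S.erase j))
      ⟨(C.X (n + 1)).ι, (C.X (n + 1)).loc⟩ U.unop.pt => y.1) h6)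
  exact ⟨(⟨y, hy⟩ : Loc.evS (k := k) (P := T.P (S.erase j))
    ⟨(C.X (n - 1)).ι, (C.X (n - 1)).loc⟩ U.unop.pt), Subtype.ext hy'⟩

end fin

section iso

variable {k : Type u} [Ring k] {Γ : Type u} [Group Γ] {B : Type u} [MulAction Γ B] {P : Pre Γ B}

theorem dm_iso {M N : Fn k P} (e : M ≅ N) {I : Type u} (w : I → B) :
    Function.Bijective (dm e.hom w) := by
  refine Function.bijective_iff_has_inverse.2 ⟨dm e.inv w, fun x => ?_, fun x => ?_⟩
  · rw [dm_comp, e.hom_inv_id]
    refine DFinsupp.ext fun i => ?_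
    rfl
  · rw [dm_comp, e.inv_hom_id]
    refine DFinsupp.ext fun i => ?_
    rfl

/-- The homology of a complex. -/
noncomputable def hqIso (C : CochainComplex (Loc k P) ℤ) (n : ℤ) :
    (hq k P n).obj (qo C) ≅
      (((Loc.ev (k := k) (P := P)).mapHomologicalComplex (ComplexShape.up ℤ)).obj C).homology n :=
  (HomotopyCategory.homologyFunctorFactors (Fn k P) (ComplexShape.up ℤ) n).app _

end iso

/-- TAC. -/
theorem tac (hE : ElhStatement.{u}) (hT : TacsStatement.{u}) (hC : ConsStatement.{u}) :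
    TacStatement.{u} := by
  intro Γ _ T D S j k _ X hj hX
  have tiso : ∀ {M N : Fn k (T.P S)} (e : M ≅ N), D.Tac M j → D.Tac N j := by
    intro M N e h U
    have h1 : D.bd N j U ∘ dm e.hom (fun e => T.up j U (D.ed j e)) =
        dm e.hom (fun v => T.up j U (D.vt j v)) ∘ D.bd M j U :=
      funext fun x => bd_nat D j e.hom U x
    have h2 : Function.Bijective (D.bd N j U ∘ dm e.hom (fun e => T.up j U (D.ed j e))) := by
      rw [h1]
      exact (dm_iso e _).comp (h U)
    exact (Function.Bijective.of_comp_iff _ (dm_iso e _)).1 h2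
  constructor
  · intro hz n
    refine tiso (hqIso X.as n).symm fun U => ?_
    have h1 : ∀ n, IsZero ((evl j X.as).homology n) := fun n =>
      ((hq k (T.P (S.erase j)) n).map_isZero hz).of_iso
        (hqIso (((Loc.push (T.fg (S.erase_subset j))).mapHomologicalComplex
          (ComplexShape.up ℤ)).obj X.as) n).symm
    exact (bij_iff_qac D j hE hT X.as hj U).2 (qac_of_isZero hE j X.as h1 U) n
  · intro h
    refine hC k Γ T.Box (T.P (S.erase j)) _ (per_L _ hX) fun n => ?_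
    exact (isZero_of_qac hE j X.as (fun U =>
      (bij_iff_qac D j hE hT X.as hj U).1 fun n => tiso (hqIso X.as n) (h n) U) n).of_iso
        (hqIso (((Loc.push (T.fg (S.erase_subset j))).mapHomologicalComplex
          (ComplexShape.up ℤ)).obj X.as) n)

end Pool.Agent.NegK.NT.H5
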